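import Pool.Agent.helper8.GD.Spec

/-!
# gd: lower bound of the local factor (LD)
-/

set_option autoImplicit false

namespace GD

open Finset

theorem LD_count (l c : ℕ) : #((range l).filter fun n => n ≡ c [MOD l]) ≤ 1 := by
  rw [Finset.card_le_one]
  intro a ha b hb
  rw [Finset.mem_filter, Finset.mem_range] at ha hb
  exact (ha.2.trans hb.2.symm).eq_of_lt_of_lt ha.1 hb.1

theorem LD_shift (l N : ℕ) (hl : l.Prime) :
    #((range l).filter fun n => dv l (N + (l - 1) * n)) ≤ #((range l).filter fun n => dv l n) := by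
  apply Finset.card_le_card_of_injOn (fun n => (N + (l - 1) * n) % l)
  · intro n hn
    rw [Finset.mem_coe, Finset.mem_filter] at hn
    rw [Finset.mem_coe, Finset.mem_filter, Finset.mem_range]
    refine ⟨Nat.mod_lt _ hl.pos, ?_⟩
    have h1 : (N + (l - 1) * n) % l ≡ N + (l - 1) * n [MOD l] := Nat.mod_modEq _ _
    exact ((h1.pow 2).mul_left 8).trans hn.2
  · intro n hn m hm h
    rw [Finset.mem_coe, Finset.mem_filter, Finset.mem_range] at hn hm
    have h1 : N + (l - 1) * n ≡ N + (l - 1) * m [MOD l] := h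
    have h2 : (l - 1) * n ≡ (l - 1) * m [MOD l] := Nat.ModEq.add_left_cancel' N h1
    have h3 : Nat.gcd l (l - 1) = 1 := by
      have h4 := (Nat.coprime_self_sub_right (m := 1) (n := l) hl.one_lt.le).2 (Nat.coprime_one_right l)
      exact h4
    exact (Nat.ModEq.cancel_left_of_coprime h3 h2).eq_of_lt_of_lt hn.1 hm.1

theorem LD_om_two (N : ℕ) (hN : Even N) : om N 2 ≤ 1 := by
  obtain ⟨M, hM⟩ := hN
  unfold om
  rw [Finset.card_le_one]
  have key : ∀ a, a ∈ (range 2).filter (fun n => n ≡ 0 [MOD 2] ∨ n ≡ N [MOD 2] ∨ dv 2 n ∨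
      dv 2 (N + (2 - 1) * n)) → a = 0 := by
    intro a ha
    rw [Finset.mem_filter, Finset.mem_range] at ha
    obtain ⟨h1, h2⟩ := ha
    rcases h2 with h2 | h2 | h2 | h2
    · have : a % 2 = 0 % 2 := h2
      omega
    · have : a % 2 = N % 2 := h2
      omega
    · have : 8 * a ^ 2 % 2 = 1 % 2 := h2
      omega
    · have : 8 * (N + (2 - 1) * a) ^ 2 % 2 = 1 % 2 := h2
      omega
  intro a ha b hb
  rw [key a ha, key b hb]

theorem LD_om (N l k : ℕ) (hl : l.Prime) (hk : #((range l).filter fun n => dv l n) ≤ k) :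
    om N l ≤ 2 + 2 * k := by
  unfold om
  rw [Finset.filter_or, Finset.filter_or, Finset.filter_or]
  have h1 := LD_count l 0
  have h2 := LD_count l N
  have h3 := LD_shift l N hl
  refine (Finset.card_union_le _ _).trans ?_
  refine (add_le_add h1 ((Finset.card_union_le _ _).trans (add_le_add h2
    ((Finset.card_union_le _ _).trans (add_le_add hk (h3.trans hk)))))).trans ?_
  omega

theorem LD_exp (t : ℝ) (ht : t < 1) : Real.exp (-(t / (1 - t))) ≤ 1 - t := by
  have h1 : 0 < 1 - t := by linarith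
  have h2 := Real.add_one_le_exp (t / (1 - t))
  have h3 : t / (1 - t) + 1 = (1 - t)⁻¹ := by field_simp; ring
  rw [h3] at h2
  rw [Real.exp_neg]
  exact inv_le_of_inv_le₀ h1 h2

/-- the factor of a prime with two roots -/
theorem LD_six (x o : ℝ) (hx : 7 ≤ x) (ho : o ≤ 6) :
    Real.exp (-(4 / x + 175 / x ^ 2)) ≤ (1 - 1 / x)⁻¹ ^ 2 * (1 - o / x) := by
  have hx0 : 0 < x := by linarith
  have hx1 : 0 < x - 1 := by linarith
  have hx6 : 0 < x - 6 := by linarith
  have ht : (4 * x + 1) / (x - 1) ^ 2 < 1 := by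
    rw [div_lt_one (by positivity)]
    nlinarith
  have h1 := LD_exp _ ht
  have h2 : 1 - (4 * x + 1) / (x - 1) ^ 2 = (1 - 1 / x)⁻¹ ^ 2 * (1 - 6 / x) := by
    have : (1 - 1 / x) = (x - 1) / x := by field_simp
    rw [this]
    field_simp
    ring
  have h3 : (4 * x + 1) / (x - 1) ^ 2 / (1 - (4 * x + 1) / (x - 1) ^ 2) ≤ 4 / x + 175 / x ^ 2 := by
    have h4 : 1 - (4 * x + 1) / (x - 1) ^ 2 = x * (x - 6) / (x - 1) ^ 2 := by
      field_simp
      ring
    rw [h4, div_div_div_cancel_right₀ (by positivity), div_le_iff₀ (by positivity)]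
    have h5 : (4 / x + 175 / x ^ 2) * (x * (x - 6)) = (4 + 175 / x) * (x - 6) := by
      field_simp
    rw [h5]
    have h6 : 175 / x * x = 175 := by field_simp
    have h7 : 175 / x ≤ 25 := by
      rw [div_le_iff₀ hx0]; linarith
    nlinarith
  calc Real.exp (-(4 / x + 175 / x ^ 2)) ≤
      Real.exp (-((4 * x + 1) / (x - 1) ^ 2 / (1 - (4 * x + 1) / (x - 1) ^ 2))) :=
        Real.exp_le_exp.2 (by linarith)
    _ ≤ 1 - (4 * x + 1) / (x - 1) ^ 2 := h1
    _ = (1 - 1 / x)⁻¹ ^ 2 * (1 - 6 / x) := h2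
    _ ≤ _ := by
      apply mul_le_mul_of_nonneg_left _ (by positivity)
      have : o / x ≤ 6 / x := div_le_div_of_nonneg_right ho hx0.le
      linarith

/-- the factor of a prime without roots -/
theorem LD_two (x o : ℝ) (hx : 3 ≤ x) (ho : o ≤ 2) :
    Real.exp (-(175 / x ^ 2)) ≤ (1 - 1 / x)⁻¹ ^ 2 * (1 - o / x) := by
  have hx0 : 0 < x := by linarith
  have hx1 : 0 < x - 1 := by linarith
  have hx6 : 0 < x - 2 := by linarith
  have ht : 1 / (x - 1) ^ 2 < 1 := by
    rw [div_lt_one (by positivity)]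
    nlinarith
  have h1 := LD_exp _ ht
  have h2 : 1 - 1 / (x - 1) ^ 2 = (1 - 1 / x)⁻¹ ^ 2 * (1 - 2 / x) := by
    have : (1 - 1 / x) = (x - 1) / x := by field_simp
    rw [this]
    field_simp
    ring
  have h3 : 1 / (x - 1) ^ 2 / (1 - 1 / (x - 1) ^ 2) ≤ 175 / x ^ 2 := by
    have h4 : 1 - 1 / (x - 1) ^ 2 = x * (x - 2) / (x - 1) ^ 2 := by
      field_simp
      ring
    rw [h4, div_div_div_cancel_right₀ (by positivity), div_le_div_iff₀ (by positivity) (by positivity)]
    nlinarith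
  calc Real.exp (-(175 / x ^ 2)) ≤
      Real.exp (-(1 / (x - 1) ^ 2 / (1 - 1 / (x - 1) ^ 2))) :=
        Real.exp_le_exp.2 (by linarith)
    _ ≤ 1 - 1 / (x - 1) ^ 2 := h1
    _ = (1 - 1 / x)⁻¹ ^ 2 * (1 - 2 / x) := h2
    _ ≤ _ := by
      apply mul_le_mul_of_nonneg_left _ (by positivity)
      have : o / x ≤ 2 / x := div_le_div_of_nonneg_right ho hx0.le
      linarith

theorem LD_sq (w : ℕ) : ∑ l ∈ Ps w, 1 / (l : ℝ) ^ 2 ≤ 2 := by
  have h : ∀ w : ℕ, ∑ l ∈ Icc 1 (w + 1), 1 / (l : ℝ) ^ 2 ≤ 2 - 1 / ((w : ℝ) + 1) := by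
    intro w
    induction w with
    | zero => norm_num
    | succ w ih =>
      rw [Finset.sum_Icc_succ_top (by omega)]
      push_cast
      have h1 : (0 : ℝ) < (w : ℝ) + 1 := by positivity
      have h2 : (1 : ℝ) / ((w : ℝ) + 1 + 1) ^ 2 ≤ 1 / ((w : ℝ) + 1) - 1 / ((w : ℝ) + 1 + 1) := by
        rw [div_sub_div _ _ (by positivity) (by positivity), div_le_div_iff₀ (by positivity)
          (by positivity)]
        nlinarith
      linarith
  have h1 : ∑ l ∈ Ps w, 1 / (l : ℝ) ^ 2 ≤ ∑ l ∈ Icc 1 (w + 1), 1 / (l : ℝ) ^ 2 := by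
    apply Finset.sum_le_sum_of_subset_of_nonneg
    · intro l hl
      unfold Ps at hl
      rw [Finset.mem_filter, Finset.mem_Icc] at hl
      rw [Finset.mem_Icc]
      omega
    · intro l _ _
      positivity
  have h2 := h w
  have h3 : (0 : ℝ) ≤ 1 / ((w : ℝ) + 1) := by positivity
  linarith

theorem LD (hRT : RT_stmt) (hG2 : G2_stmt) : LD_stmt := by
  classical
  obtain ⟨hR1, hR2, -, -, -⟩ := hRT
  obtain ⟨C, hC, hG⟩ := hG2
  refine ⟨Real.exp (2 * Real.log (Real.log 2) - 2 * (C / Real.log 2) - 350), Real.exp_pos _, ?_⟩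
  intro w N hw hN
  have hwr : (2 : ℝ) ≤ w := by exact_mod_cast hw
  have hlw : 0 < Real.log w := Real.log_pos (by linarith)
  have hVN : VN w N = ∏ l ∈ Ps w, ((1 - 1 / (l : ℝ))⁻¹ ^ 2 * (1 - (om N l : ℝ) / l)) := by
    unfold VN cw
    rw [← Finset.prod_pow, ← Finset.prod_mul_distrib]
  let g : ℕ → ℝ := fun l => if l % 8 = 1 ∨ l % 8 = 7 then 4 / (l : ℝ) else 0
  have hfac : ∀ l ∈ Ps w, Real.exp (-(g l + 175 / (l : ℝ) ^ 2)) ≤
      (1 - 1 / (l : ℝ))⁻¹ ^ 2 * (1 - (om N l : ℝ) / l) := by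
    intro l hl
    unfold Ps at hl
    rw [Finset.mem_filter] at hl
    have hlp := hl.2
    by_cases h : l % 8 = 1 ∨ l % 8 = 7
    · have h7 : 7 ≤ l := by
        have := hlp.two_le
        omega
      have hom : om N l ≤ 6 := LD_om N l 2 hlp (hR1 l hlp h).le
      have h1 : (7 : ℝ) ≤ l := by exact_mod_cast h7
      have h2 : (om N l : ℝ) ≤ 6 := by exact_mod_cast hom
      simp only [g, if_pos h]
      exact LD_six l _ h1 h2
    · simp only [g, if_neg h, zero_add]
      by_cases hl2 : l = 2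
      · subst hl2
        have hom : (om N 2 : ℝ) ≤ 1 := by exact_mod_cast LD_om_two N hN
        have h1 : Real.exp (-(175 / ((2 : ℕ) : ℝ) ^ 2)) ≤ 1 := by
          apply Real.exp_le_one_iff.2
          norm_num
        refine h1.trans ?_
        push_cast
        norm_num
        linarith
      · have h3 : 3 ≤ l := by
          have := hlp.two_le
          omega
        have hzero : #((range l).filter fun n => dv l n) ≤ 0 := by
          rw [Nat.le_zero, Finset.card_eq_zero, Finset.filter_eq_empty_iff]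
          intro n _ hn
          exact h (hR2 l n hlp hn)
        have hom : om N l ≤ 2 := LD_om N l 0 hlp hzero
        have h1 : (3 : ℝ) ≤ l := by exact_mod_cast h3
        have h2 : (om N l : ℝ) ≤ 2 := by exact_mod_cast hom
        exact LD_two l _ h1 h2
  have hprod : Real.exp (-(∑ l ∈ Ps w, (g l + 175 / (l : ℝ) ^ 2))) ≤ VN w N := by
    rw [hVN, ← Finset.sum_neg_distrib, Real.exp_sum]
    exact Finset.prod_le_prod (fun l _ => (Real.exp_pos _).le) hfac
  have hg : ∑ l ∈ Ps w, g l = 2 * ∑ l ∈ Qs 2 (w : ℝ), 2 / (l : ℝ) := by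
    have h1 : Qs 2 (w : ℝ) = (Ps w).filter (fun l => l % 8 = 1 ∨ l % 8 = 7) := by
      unfold Qs Ps
      rw [Nat.floor_natCast, Finset.filter_filter]
      apply Finset.filter_congr
      intro l _
      constructor
      · rintro ⟨h1, -, h2⟩
        exact ⟨h1, h2⟩
      · rintro ⟨h1, h2⟩
        refine ⟨h1, ?_, h2⟩
        have := h1.two_le
        omega
    rw [h1, Finset.sum_filter, Finset.mul_sum]
    refine Finset.sum_congr rfl (fun l _ => ?_)
    simp only [g]
    split_ifs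
    · ring
    · ring
  have hq := hG 2 w le_rfl hwr
  rw [abs_le] at hq
  have hsq := LD_sq w
  have hS : ∑ l ∈ Ps w, (g l + 175 / (l : ℝ) ^ 2) ≤
      2 * (Real.log (Real.log w) - Real.log (Real.log 2) + C / Real.log 2) + 350 := by
    rw [Finset.sum_add_distrib, hg]
    have h1 : ∑ l ∈ Ps w, 175 / (l : ℝ) ^ 2 = 175 * ∑ l ∈ Ps w, 1 / (l : ℝ) ^ 2 := by
      rw [Finset.mul_sum]
      refine Finset.sum_congr rfl (fun l _ => ?_)
      ring
    rw [h1]
    have h2 := hq.2
    push_cast at h2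
    linarith
  refine le_trans ?_ hprod
  have h1 : Real.exp (2 * Real.log (Real.log 2) - 2 * (C / Real.log 2) - 350) / Real.log w ^ 2 =
      Real.exp (2 * Real.log (Real.log 2) - 2 * (C / Real.log 2) - 350 -
        2 * Real.log (Real.log w)) := by
    rw [Real.exp_sub _ (2 * Real.log (Real.log w))]
    congr 1
    rw [two_mul, Real.exp_add, Real.exp_log hlw]
    ring
  rw [h1]
  apply Real.exp_le_exp.2
  linarith

end GD
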