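import Pool.Agent.helper8.GD.Spec

/-!
# gd: roots of `8 n² ≡ 1` (RT)
-/

set_option autoImplicit false

namespace GD

open Finset

/-- roots modulo `d` -/
abbrev RT_R (d : ℕ) : Type := {x : ZMod d // 8 * x ^ 2 = 1}

theorem RT_card (d : ℕ) (hd : 0 < d) :
    #((range d).filter fun n => dv d n) = Nat.card (RT_R d) := by
  classical
  have : NeZero d := ⟨hd.ne'⟩
  rw [Nat.card_eq_fintype_card, Fintype.card_subtype]
  have key : ∀ n : ℕ, dv d n ↔ 8 * ((n : ZMod d)) ^ 2 = 1 := by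
    intro n
    unfold dv
    rw [← ZMod.natCast_eq_natCast_iff]
    push_cast
    rfl
  refine Finset.card_bij (fun n _ => (n : ZMod d)) ?_ ?_ ?_
  · intro n hn
    rw [Finset.mem_filter] at hn
    rw [Finset.mem_filter]
    exact ⟨Finset.mem_univ _, (key n).1 hn.2⟩
  · intro n hn m hm h
    rw [Finset.mem_filter, Finset.mem_range] at hn hm
    rw [ZMod.natCast_eq_natCast_iff] at h
    exact Nat.ModEq.eq_of_lt_of_lt h hn.1 hm.1
  · intro x hx
    rw [Finset.mem_filter] at hx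
    refine ⟨x.val, ?_, ZMod.natCast_zmod_val x⟩
    rw [Finset.mem_filter, Finset.mem_range]
    refine ⟨ZMod.val_lt x, (key _).2 ?_⟩
    rw [ZMod.natCast_zmod_val]
    exact hx.2

theorem RT_mul (a b : ℕ) (h : Nat.Coprime a b) :
    Nat.card (RT_R (a * b)) = Nat.card (RT_R a) * Nat.card (RT_R b) := by
  rw [← Nat.card_prod]
  apply Nat.card_congr
  have e1 : RT_R (a * b) ≃ {p : ZMod a × ZMod b // 8 * p.1 ^ 2 = 1 ∧ 8 * p.2 ^ 2 = 1} := by
    refine (ZMod.chineseRemainder h).toEquiv.subtypeEquiv ?_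
    intro x
    have h1 : 8 * x ^ 2 = 1 ↔ ZMod.chineseRemainder h (8 * x ^ 2) = 1 := by
      rw [← (ZMod.chineseRemainder h).injective.eq_iff (a := 8 * x ^ 2), map_one]
    rw [h1, map_mul, map_pow, map_ofNat, Prod.ext_iff]
    rfl
  exact e1.trans (Equiv.subtypeProdEquivProd (p := fun x : ZMod a => 8 * x ^ 2 = 1)
    (q := fun x : ZMod b => 8 * x ^ 2 = 1))

theorem RT_two {l : ℕ} (hl : l.Prime) (x0 : ZMod l) (h : 8 * x0 ^ 2 = 1) :
    Nat.card (RT_R l) = 2 := by
  have : Fact l.Prime := ⟨hl⟩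
  have h8 : (8 : ZMod l) ≠ 0 := by
    intro h8
    rw [h8, zero_mul] at h
    exact zero_ne_one h
  have h2 : (2 : ZMod l) ≠ 0 := by
    intro h2
    apply h8
    have : (8 : ZMod l) = 2 * 4 := by norm_num
    rw [this, h2, zero_mul]
  have hx0 : x0 ≠ 0 := by
    intro hx
    rw [hx] at h
    simp at h
  have hset : {x : ZMod l | 8 * x ^ 2 = 1} = {x0, -x0} := by
    ext x
    simp only [Set.mem_setOf_eq, Set.mem_insert_iff, Set.mem_singleton_iff]
    rw [← sq_eq_sq_iff_eq_or_eq_neg, ← h]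
    constructor
    · intro h1
      exact mul_left_cancel₀ h8 h1
    · intro h1
      rw [h1]
  have : Nat.card (RT_R l) = {x : ZMod l | 8 * x ^ 2 = 1}.ncard := rfl
  rw [this, hset, Set.ncard_pair]
  intro h1
  have h3 : 2 * x0 = 0 := by
    have : x0 + x0 = 0 := by
      nth_rewrite 2 [h1]
      ring
    rw [two_mul]; exact this
  rcases mul_eq_zero.1 h3 with h4 | h4
  · exact h2 h4
  · exact hx0 h4

theorem RT_le {l : ℕ} (hl : l.Prime) : Nat.card (RT_R l) ≤ 2 := by
  by_cases h : ∃ x0 : ZMod l, 8 * x0 ^ 2 = 1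
  · obtain ⟨x0, h⟩ := h
    rw [RT_two hl x0 h]
  · have : IsEmpty (RT_R l) := ⟨fun x => h ⟨x.1, x.2⟩⟩
    rw [Nat.card_of_isEmpty]
    exact Nat.zero_le _

theorem RT_prod (S : Finset ℕ) : (∀ l ∈ S, l.Prime) →
    Nat.card (RT_R (pr S)) = ∏ l ∈ S, Nat.card (RT_R l) := by
  classical
  induction S using Finset.induction_on with
  | empty =>
    intro _
    have : pr ∅ = 1 := by simp [pr]
    rw [this, Finset.prod_empty]
    have : Unique (RT_R 1) :=
      { default := ⟨0, Subsingleton.elim _ _⟩, uniq := fun a => Subtype.ext (Subsingleton.elim _ _) }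
    exact Nat.card_unique
  | insert l S hl ih =>
    intro hS
    have h1 : pr (insert l S) = l * pr S := by
      unfold pr
      rw [Finset.prod_insert hl]
    rw [h1, Finset.prod_insert hl, RT_mul, ih (fun q hq => hS q (Finset.mem_insert_of_mem hq))]
    unfold pr
    apply Nat.Coprime.prod_right
    intro q hq
    rw [Nat.coprime_primes (hS l (Finset.mem_insert_self _ _)) (hS q (Finset.mem_insert_of_mem hq))]
    intro h
    exact hl (h ▸ hq)

theorem RT_pr_pos (S : Finset ℕ) (hS : ∀ l ∈ S, l.Prime) : 0 < pr S :=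
  Finset.prod_pos (fun l hl => (hS l hl).pos)

theorem RT_root {l : ℕ} (hl : l.Prime) (h : l % 8 = 1 ∨ l % 8 = 7) :
    Nat.card (RT_R l) = 2 := by
  have : Fact l.Prime := ⟨hl⟩
  have hl2 : l ≠ 2 := by
    rintro rfl
    omega
  have h2 : (2 : ZMod l) ≠ 0 := by
    intro h2
    have h3 : ((2 : ℕ) : ZMod l) = 0 := by exact_mod_cast h2
    rw [ZMod.natCast_eq_zero_iff] at h3
    exact hl2 ((Nat.prime_dvd_prime_iff_eq hl Nat.prime_two).1 h3)
  obtain ⟨y, hy⟩ := (ZMod.exists_sq_eq_two_iff hl2).2 h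
  have h4 : (4 : ZMod l) ≠ 0 := by
    have : (4 : ZMod l) = 2 * 2 := by norm_num
    rw [this]
    exact mul_ne_zero h2 h2
  refine RT_two hl (y / 4) ?_
  have : (8 : ZMod l) * (y / 4) ^ 2 = 8 * (y * y) / (4 * 4) := by
    field_simp
  rw [this, ← hy]
  field_simp
  norm_num

theorem RT : RT_stmt := by
  refine ⟨?_, ?_, ?_, ?_, ?_⟩
  · intro l hl h
    rw [RT_card l hl.pos, RT_root hl h]
  · intro l n hl h
    have : Fact l.Prime := ⟨hl⟩
    have hl2 : l ≠ 2 := by
      rintro rfl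
      unfold dv at h
      have : 8 * n ^ 2 % 2 = 1 % 2 := h
      omega
    rw [← ZMod.exists_sq_eq_two_iff hl2]
    have h1 : 8 * ((n : ZMod l)) ^ 2 = 1 := by
      unfold dv at h
      rw [← ZMod.natCast_eq_natCast_iff] at h
      push_cast at h
      exact h
    refine ⟨4 * n, ?_⟩
    calc (2 : ZMod l) = 2 * (8 * (n : ZMod l) ^ 2) := by rw [h1, mul_one]
      _ = 4 * n * (4 * n) := by ring
  · intro D hD
    rw [RT_card _ (RT_pr_pos D fun l hl => (hD l hl).1), RT_prod D fun l hl => (hD l hl).1,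
      Finset.prod_congr rfl (fun l hl => RT_root (hD l hl).1 (hD l hl).2), Finset.prod_const]
  · intro d hd
    have h1 : pr d.primeFactors = d := Nat.prod_primeFactors_of_squarefree hd
    have h2 : ∀ l ∈ d.primeFactors, l.Prime := fun l hl => Nat.prime_of_mem_primeFactors hl
    rw [RT_card d (Nat.pos_of_ne_zero hd.ne_zero)]
    conv_lhs => rw [← h1]
    rw [RT_prod _ h2, ← Finset.prod_const]
    exact Finset.prod_le_prod' (fun l hl => RT_le (h2 l hl))
  · intro d n h
    have h1 : Nat.gcd (8 * n ^ 2) d = 1 := by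
      rw [Nat.ModEq.gcd_eq h]
      simp
    have h2 : Nat.Coprime (8 * n ^ 2) d := h1
    have h3 := Nat.Coprime.coprime_dvd_left (Dvd.intro_left 8 rfl) h2
    exact Nat.Coprime.coprime_dvd_left (dvd_pow_self n two_ne_zero) h3

end GD
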