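import Pool.Agent.helper8.GD.Spec

/-!
# gd: sharp cutoff against truncated sum (TR1)
-/

set_option autoImplicit false

namespace GD

open Finset ArithmeticFunction

/-- number of prime factors of `8 n² - 1` -/
def TR1_om (n : ℕ) : ℕ := (8 * n ^ 2 - 1).primeFactors.card

theorem TR1_dv (E : Finset ℕ) (n : ℕ) : (∀ l ∈ E, l.Prime) → (dv (pr E) n ↔ ∀ l ∈ E, dv l n) := by
  classical
  induction E using Finset.induction_on with
  | empty =>
    intro _
    simp only [Finset.notMem_empty, false_imp_iff, imp_true_iff, iff_true]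
    show 8 * n ^ 2 ≡ 1 [MOD pr ∅]
    have : pr ∅ = 1 := by simp [pr]
    rw [this]
    exact Nat.modEq_one
  | insert l E hl ih =>
    intro hE
    have h1 : pr (insert l E) = l * pr E := by
      unfold pr
      rw [Finset.prod_insert hl]
    have h2 : Nat.Coprime l (pr E) := by
      unfold pr
      apply Nat.Coprime.prod_right
      intro q hq
      rw [Nat.coprime_primes (hE l (Finset.mem_insert_self _ _))
        (hE q (Finset.mem_insert_of_mem hq))]
      intro h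
      exact hl (h ▸ hq)
    rw [h1]
    show 8 * n ^ 2 ≡ 1 [MOD l * pr E] ↔ _
    rw [← Nat.modEq_and_modEq_iff_modEq_mul h2, Finset.forall_mem_insert,
      ← ih (fun q hq => hE q (Finset.mem_insert_of_mem hq))]

theorem TR1_card (S : Finset ℕ) (n : ℕ) (hn : 1 ≤ n) (hS : ∀ l ∈ S, l.Prime ∧ dv l n) :
    #S ≤ TR1_om n := by
  unfold TR1_om
  apply Finset.card_le_card
  intro l hl
  obtain ⟨h1, h2⟩ := hS l hl
  have h3 : 1 ≤ 8 * n ^ 2 := by
    have := Nat.one_le_pow 2 n hn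
    omega
  rw [Nat.mem_primeFactors]
  refine ⟨h1, ?_, ?_⟩
  · exact (Nat.modEq_iff_dvd' h3).1 h2.symm
  · have := Nat.one_le_pow 2 n hn
    omega

theorem TR1_pow (Q : Finset ℕ) (n : ℕ) (hQ : ∀ l ∈ Q, l.Prime) :
    Q.powerset.filter (fun D => dv (pr D) n) = (Q.filter (fun l => dv l n)).powerset := by
  ext D
  rw [Finset.mem_filter, Finset.mem_powerset, Finset.mem_powerset]
  constructor
  · rintro ⟨h1, h2⟩
    rw [TR1_dv D n (fun l hl => hQ l (h1 hl))] at h2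
    intro l hl
    exact Finset.mem_filter.2 ⟨h1 hl, h2 l hl⟩
  · intro h
    have h1 : D ⊆ Q := fun l hl => (Finset.mem_filter.1 (h hl)).1
    refine ⟨h1, ?_⟩
    rw [TR1_dv D n (fun l hl => hQ l (h1 hl))]
    intro l hl
    exact (Finset.mem_filter.1 (h hl)).2

theorem TR1_Fv (Q : Finset ℕ) (ξ : Finset ℕ → ℝ) (n K : ℕ) (M : ℝ) (hn : 1 ≤ n) (hM : 0 ≤ M)
    (hQ : ∀ l ∈ Q, l.Prime) (hξ : ∀ D ⊆ Q, |ξ D| ≤ (K : ℝ) ^ #D * M) :
    |Fv Q ξ n| ≤ ((K : ℝ) + 1) ^ TR1_om n * M := by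
  unfold Fv
  rw [TR1_pow Q n hQ]
  refine (Finset.abs_sum_le_sum_abs _ _).trans ?_
  have h1 : ∑ D ∈ (Q.filter (fun l => dv l n)).powerset, |ξ D| ≤
      ∑ D ∈ (Q.filter (fun l => dv l n)).powerset,
        ((K : ℝ) ^ #D * 1 ^ (#(Q.filter (fun l => dv l n)) - #D)) * M := by
    apply Finset.sum_le_sum
    intro D hD
    rw [one_pow, mul_one]
    exact hξ D ((Finset.mem_powerset.1 hD).trans (Finset.filter_subset _ _))
  refine h1.trans ?_
  rw [← Finset.sum_mul, Finset.sum_pow_mul_eq_add_pow]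
  apply mul_le_mul_of_nonneg_right _ hM
  apply pow_le_pow_right₀
  · have : (0 : ℝ) ≤ K := Nat.cast_nonneg K
    linarith
  · apply TR1_card _ n hn
    intro l hl
    rw [Finset.mem_filter] at hl
    exact ⟨hQ l hl.1, hl.2⟩

theorem TR1_Ps (w : ℕ) : ∀ l ∈ Ps w, l.Prime := by
  intro l hl
  unfold Ps at hl
  exact (Finset.mem_filter.1 hl).2

theorem TR1_Bt_eq (w s n : ℕ) : Bt w s n =
    ∑ E ∈ ((Ps w).filter (fun l => dv l n)).powerset with #E ≤ s, (-1 : ℝ) ^ #E := by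
  unfold Bt
  rw [← TR1_pow (Ps w) n (TR1_Ps w), Finset.filter_filter]
  apply Finset.sum_congr _ (fun _ _ => rfl)
  apply Finset.filter_congr
  intro E _
  exact and_comm

theorem TR1_Bt (w s n : ℕ) (hn : 1 ≤ n) : |Bt w s n| ≤ 2 ^ TR1_om n := by
  rw [TR1_Bt_eq]
  refine (Finset.abs_sum_le_sum_abs _ _).trans ?_
  have h1 : ∑ E ∈ ((Ps w).filter (fun l => dv l n)).powerset with #E ≤ s, |(-1 : ℝ) ^ #E| ≤
      ∑ E ∈ ((Ps w).filter (fun l => dv l n)).powerset, (1 : ℝ) := by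
    have : ∀ E : Finset ℕ, |(-1 : ℝ) ^ #E| = 1 := by
      intro E
      rw [abs_pow, abs_neg, abs_one, one_pow]
    simp_rw [this]
    exact Finset.sum_le_sum_of_subset_of_nonneg (Finset.filter_subset _ _)
      (fun _ _ _ => zero_le_one)
  refine h1.trans ?_
  rw [Finset.sum_const, Finset.card_powerset, nsmul_eq_mul, mul_one]
  push_cast
  apply pow_le_pow_right₀ (by norm_num)
  apply TR1_card _ n hn
  intro l hl
  rw [Finset.mem_filter] at hl
  exact ⟨TR1_Ps w l hl.1, hl.2⟩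

theorem TR1_sh (w n : ℕ) : |sh w n| ≤ 1 := by
  unfold sh
  split_ifs <;> simp

theorem TR1_diff (w s n : ℕ) (hn : 1 ≤ n) :
    |sh w n - Bt w s n| ≤ Real.exp (-(s : ℝ)) * 6 ^ TR1_om n := by
  have hb : #((Ps w).filter (fun l => dv l n)) ≤ TR1_om n := by
    apply TR1_card _ n hn
    intro l hl
    rw [Finset.mem_filter] at hl
    exact ⟨TR1_Ps w l hl.1, hl.2⟩
  by_cases h : #((Ps w).filter (fun l => dv l n)) ≤ s
  · have h1 : Bt w s n = sh w n := by
      rw [TR1_Bt_eq, Finset.filter_true_of_mem]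
      · have h2 := Finset.sum_pow_mul_eq_add_pow (-1 : ℝ) 1 ((Ps w).filter (fun l => dv l n))
        simp only [one_pow, mul_one] at h2
        rw [h2, neg_add_cancel]
        unfold sh
        by_cases h3 : ∀ l ∈ Ps w, ¬ dv l n
        · rw [if_pos h3, Finset.filter_false_of_mem h3]
          simp
        · rw [if_neg h3, zero_pow]
          rw [Finset.card_ne_zero]
          push Not at h3
          obtain ⟨l, h4, h5⟩ := h3
          exact ⟨l, Finset.mem_filter.2 ⟨h4, h5⟩⟩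
      · intro E hE
        exact (Finset.card_le_card (Finset.mem_powerset.1 hE)).trans h
    rw [h1, sub_self, abs_zero]
    positivity
  · rw [not_le] at h
    have h1 : sh w n = 0 := by
      unfold sh
      rw [if_neg]
      intro h3
      rw [Finset.filter_false_of_mem h3] at h
      simp at h
    rw [h1, zero_sub, abs_neg]
    refine (TR1_Bt w s n hn).trans ?_
    have h2 : (6 : ℝ) ^ TR1_om n = 2 ^ TR1_om n * 3 ^ TR1_om n := by
      rw [← mul_pow]; norm_num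
    have h3 : Real.exp (s : ℝ) ≤ 3 ^ TR1_om n := by
      have h4 : Real.exp 1 ≤ 3 := by
        have := Real.exp_one_lt_d9
        linarith
      calc Real.exp (s : ℝ) ≤ Real.exp (TR1_om n : ℝ) := by
            apply Real.exp_le_exp.2
            exact_mod_cast (h.le.trans hb)
        _ = Real.exp 1 ^ TR1_om n := by rw [← Real.exp_nat_mul, mul_one]
        _ ≤ 3 ^ TR1_om n := pow_le_pow_left₀ (Real.exp_pos _).le h4 _
    have h5 : 1 ≤ Real.exp (-(s : ℝ)) * 3 ^ TR1_om n := by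
      rw [Real.exp_neg, ← div_eq_inv_mul, one_le_div (Real.exp_pos _)]
      exact h3
    rw [h2]
    have h6 : (0 : ℝ) < 2 ^ TR1_om n := by positivity
    nlinarith

theorem TR1 (hKO : KO_stmt) : TR1_stmt := by
  intro K A
  obtain ⟨C, X₁, hKO⟩ := hKO ((6 * (K + 1)) ^ 2)
  refine ⟨4 * K + C + A + 1, max X₁ 10, ?_⟩
  intro X hX w s Q₁ Q₂ hs hQ₁ hQ₂ ξ₁ ξ₂ hξ₁ hξ₂ u hu N hN
  have hX1 : X₁ ≤ X := (le_max_left _ _).trans hX
  have hX2 : 10 ≤ X := (le_max_right _ _).trans hX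
  have hXr : (10 : ℝ) ≤ X := by exact_mod_cast hX2
  set L := Real.log X with hL
  have hL2 : 2 ≤ L := by
    rw [hL, Real.le_log_iff_exp_le (by linarith)]
    have h1 : Real.exp 2 = Real.exp 1 * Real.exp 1 := by
      rw [← Real.exp_add]; norm_num
    have h2 := Real.exp_one_lt_d9
    have h3 := Real.exp_pos 1
    rw [h1]
    nlinarith
  have hL0 : 0 < L := by linarith
  rw [Finset.mem_Icc] at hN
  set G : ℝ := 6 * ((K : ℝ) + 1) with hG
  have hG0 : 0 ≤ G := by positivity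
  -- one term
  have hterm : ∀ m n : ℕ, m ∈ Icc 1 X → n ∈ Icc 1 X →
      |(u m * sh w m * Fv Q₁ ξ₁ m) * (u n * sh w n * Fv Q₂ ξ₂ n) -
        (u m * Bt w s m * Fv Q₁ ξ₁ m) * (u n * Bt w s n * Fv Q₂ ξ₂ n)| ≤
      Real.exp (-(s : ℝ)) * L ^ (4 * K) * ((G ^ 2) ^ TR1_om m + (G ^ 2) ^ TR1_om n) := by
    intro m n hm hn
    have hm1 := (Finset.mem_Icc.1 hm).1
    have hn1 := (Finset.mem_Icc.1 hn).1
    have e1 : (u m * sh w m * Fv Q₁ ξ₁ m) * (u n * sh w n * Fv Q₂ ξ₂ n) -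
        (u m * Bt w s m * Fv Q₁ ξ₁ m) * (u n * Bt w s n * Fv Q₂ ξ₂ n) =
        (u m * Fv Q₁ ξ₁ m * (u n * Fv Q₂ ξ₂ n)) *
          ((sh w m - Bt w s m) * sh w n + Bt w s m * (sh w n - Bt w s n)) := by ring
    rw [e1, abs_mul, abs_mul, abs_mul, abs_mul]
    have f1 := TR1_Fv Q₁ ξ₁ m K (L ^ K) hm1 (by positivity) hQ₁ hξ₁
    have f2 := TR1_Fv Q₂ ξ₂ n K (L ^ K) hn1 (by positivity) hQ₂ hξ₂
    have u1 := hu m hm
    have u2 := hu n hn
    have d1 := TR1_diff w s m hm1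
    have d2 := TR1_diff w s n hn1
    have b1 := TR1_Bt w s m hm1
    have s2 := TR1_sh w n
    have E0 := Real.exp_pos (-(s : ℝ))
    have g1 : |u m| * |Fv Q₁ ξ₁ m| ≤ L ^ K * (((K : ℝ) + 1) ^ TR1_om m * L ^ K) :=
      mul_le_mul u1 f1 (abs_nonneg _) (by positivity)
    have g2 : |u n| * |Fv Q₂ ξ₂ n| ≤ L ^ K * (((K : ℝ) + 1) ^ TR1_om n * L ^ K) :=
      mul_le_mul u2 f2 (abs_nonneg _) (by positivity)
    have g3 : |u m| * |Fv Q₁ ξ₁ m| * (|u n| * |Fv Q₂ ξ₂ n|) ≤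
        L ^ K * (((K : ℝ) + 1) ^ TR1_om m * L ^ K) * (L ^ K * (((K : ℝ) + 1) ^ TR1_om n * L ^ K)) :=
      mul_le_mul g1 g2 (by positivity) (by positivity)
    have g4 : |(sh w m - Bt w s m) * sh w n + Bt w s m * (sh w n - Bt w s n)| ≤
        Real.exp (-(s : ℝ)) * (2 * (6 ^ TR1_om m * 6 ^ TR1_om n)) := by
      refine (abs_add_le _ _).trans ?_
      rw [abs_mul, abs_mul]
      have k1 : |sh w m - Bt w s m| * |sh w n| ≤
          Real.exp (-(s : ℝ)) * 6 ^ TR1_om m * 1 :=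
        mul_le_mul d1 s2 (abs_nonneg _) (by positivity)
      have k2 : |Bt w s m| * |sh w n - Bt w s n| ≤
          2 ^ TR1_om m * (Real.exp (-(s : ℝ)) * 6 ^ TR1_om n) :=
        mul_le_mul b1 d2 (abs_nonneg _) (by positivity)
      have k3 : (1 : ℝ) ≤ 6 ^ TR1_om n := one_le_pow₀ (by norm_num)
      have k4 : (2 : ℝ) ^ TR1_om m ≤ 6 ^ TR1_om m := pow_le_pow_left₀ (by norm_num) (by norm_num) _
      have k5 : Real.exp (-(s : ℝ)) * 6 ^ TR1_om m * 1 ≤
          Real.exp (-(s : ℝ)) * 6 ^ TR1_om m * 6 ^ TR1_om n :=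
        mul_le_mul_of_nonneg_left k3 (by positivity)
      have k6 : 2 ^ TR1_om m * (Real.exp (-(s : ℝ)) * 6 ^ TR1_om n) ≤
          6 ^ TR1_om m * (Real.exp (-(s : ℝ)) * 6 ^ TR1_om n) :=
        mul_le_mul_of_nonneg_right k4 (by positivity)
      calc _ ≤ Real.exp (-(s : ℝ)) * 6 ^ TR1_om m * 6 ^ TR1_om n +
            6 ^ TR1_om m * (Real.exp (-(s : ℝ)) * 6 ^ TR1_om n) :=
            add_le_add (k1.trans k5) (k2.trans k6)
        _ = _ := by ring
    have g5 := mul_le_mul g3 g4 (abs_nonneg _) (by positivity)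
    refine (le_of_eq ?_).trans (g5.trans ?_)
    · ring
    · have e2 : L ^ K * (((K : ℝ) + 1) ^ TR1_om m * L ^ K) *
          (L ^ K * (((K : ℝ) + 1) ^ TR1_om n * L ^ K)) *
          (Real.exp (-(s : ℝ)) * (2 * (6 ^ TR1_om m * 6 ^ TR1_om n))) =
          Real.exp (-(s : ℝ)) * L ^ (4 * K) * (2 * G ^ TR1_om m * G ^ TR1_om n) := by
        rw [hG, mul_pow, mul_pow, show 4 * K = K + K + K + K by ring, pow_add, pow_add, pow_add]
        ring
      rw [e2]
      apply mul_le_mul_of_nonneg_left _ (by positivity)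
      have e3 : ∀ j : ℕ, (G ^ 2) ^ j = (G ^ j) ^ 2 := by
        intro j; rw [← pow_mul, ← pow_mul, mul_comm]
      rw [e3, e3]
      nlinarith [sq_nonneg (G ^ TR1_om m - G ^ TR1_om n)]
  -- the sum
  have hsum : ∑ n ∈ Icc 1 X, (G ^ 2) ^ TR1_om n ≤ X * L ^ C := by
    have h := hKO X hX1
    push_cast at h
    exact h
  have hm1 : ∑ m ∈ Ioo 0 N, (G ^ 2) ^ TR1_om m ≤ X * L ^ C := by
    refine le_trans (Finset.sum_le_sum_of_subset_of_nonneg ?_ ?_) hsum
    · intro m hm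
      rw [Finset.mem_Ioo] at hm
      rw [Finset.mem_Icc]
      omega
    · intro m _ _
      positivity
  have hm2 : ∑ m ∈ Ioo 0 N, (G ^ 2) ^ TR1_om (N - m) ≤ X * L ^ C := by
    refine le_trans (le_of_eq ?_) hm1
    refine Finset.sum_bij' (fun m _ => N - m) (fun m _ => N - m) ?_ ?_ ?_ ?_ ?_
    · intro m hm
      rw [Finset.mem_Ioo] at hm ⊢
      omega
    · intro m hm
      rw [Finset.mem_Ioo] at hm ⊢
      omega
    · intro m hm
      rw [Finset.mem_Ioo] at hm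
      omega
    · intro m hm
      rw [Finset.mem_Ioo] at hm
      omega
    · intro m hm
      rfl
  unfold cv
  rw [← Finset.sum_sub_distrib]
  refine (Finset.abs_sum_le_sum_abs _ _).trans ?_
  have h1 : ∀ m ∈ Ioo 0 N,
      |(u m * sh w m * Fv Q₁ ξ₁ m) * (u (N - m) * sh w (N - m) * Fv Q₂ ξ₂ (N - m)) -
        (u m * Bt w s m * Fv Q₁ ξ₁ m) * (u (N - m) * Bt w s (N - m) * Fv Q₂ ξ₂ (N - m))| ≤
      Real.exp (-(s : ℝ)) * L ^ (4 * K) *
        ((G ^ 2) ^ TR1_om m + (G ^ 2) ^ TR1_om (N - m)) := by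
    intro m hm
    rw [Finset.mem_Ioo] at hm
    apply hterm
    · rw [Finset.mem_Icc]; omega
    · rw [Finset.mem_Icc]; omega
  refine (Finset.sum_le_sum h1).trans ?_
  rw [← Finset.mul_sum, Finset.sum_add_distrib]
  have h2 : Real.exp (-(s : ℝ)) ≤ 1 / L ^ (4 * K + C + A + 1) := by
    have h3 : Real.exp (-(s : ℝ)) ≤ Real.exp (-(((4 * K + C + A + 1 : ℕ) : ℝ) * Real.log L)) :=
      Real.exp_le_exp.2 (by linarith)
    refine h3.trans (le_of_eq ?_)
    rw [Real.exp_neg, Real.exp_nat_mul, Real.exp_log hL0, one_div]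
  have h3 : Real.exp (-(s : ℝ)) * L ^ (4 * K) *
      (∑ m ∈ Ioo 0 N, (G ^ 2) ^ TR1_om m + ∑ m ∈ Ioo 0 N, (G ^ 2) ^ TR1_om (N - m)) ≤
      1 / L ^ (4 * K + C + A + 1) * L ^ (4 * K) * (X * L ^ C + X * L ^ C) := by
    apply mul_le_mul _ (add_le_add hm1 hm2) _ (by positivity)
    · exact mul_le_mul_of_nonneg_right h2 (by positivity)
    · apply add_nonneg <;> exact Finset.sum_nonneg (fun m _ => by positivity)
  refine h3.trans ?_
  have h4 : 1 / L ^ (4 * K + C + A + 1) * L ^ (4 * K) * (X * L ^ C + X * L ^ C) =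
      X / L ^ A * (2 / L) := by
    rw [pow_add, pow_add, pow_add, pow_one]
    field_simp
    ring
  rw [h4]
  have h5 : 2 / L ≤ 1 := by
    rw [div_le_one hL0]; exact hL2
  calc X / L ^ A * (2 / L) ≤ X / L ^ A * 1 :=
        mul_le_mul_of_nonneg_left h5 (by positivity)
    _ = X / L ^ A := mul_one _

end GD
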